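import Pool.Agent.Lib_MP_53dcbc_np.Main

/-!
# Almost all groups of order `p ^ (2 a)` and class at most two have no partial congruence partition

For every prime `p` and every `a ≥ 1` the proportion of the isomorphism types of groups of order
`s ^ 2 = p ^ (2 a)` and nilpotency class at most two which contain two subgroups of order `s = p ^ a`
with trivial intersection is at most `p ^ (30 a ^ 2 - (2 / 27) a ^ 3)`. A group with three subgroups of
order `s` that pairwise intersect trivially contains two such subgroups.
-/

set_option autoImplicit false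

namespace Pool.Agent.Results.MP_53dcbc_co.AlmostNoPCP

open Pool.Agent.Lib_MP_53dcbc_np

theorem result (p a : ℕ) (hp : p.Prime) (ha : 1 ≤ a) :
    (numTypes (p ^ (2 * a)) (fun G _ => ClassTwo G ∧ HasPCP (p ^ a) 2 G) : ℝ) ≤
      (p : ℝ) ^ (30 * (a : ℝ) ^ 2 - 2 / 27 * (a : ℝ) ^ 3 : ℝ) *
        numTypes (p ^ (2 * a)) (fun G _ => ClassTwo G) :=
  main hp ha

end Pool.Agent.Results.MP_53dcbc_co.AlmostNoPCP
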