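import Pool.Agent.Lib_MP_53dcbc_em.GSuf
import Pool.Agent.Lib_MP_53dcbc_em.GNec
import Pool.Agent.Lib_MP_53dcbc_em.GNeg

/-!
# Groups of order `s ^ 2` which are abelian by cyclic of prime power order

Let `G` be a group of order `s ^ 2` and let `A` be a normal abelian subgroup such that `G ⧸ A` is
cyclic of order `q ^ k`, where `q` is prime, `k ≠ 0` and `q ^ k ≠ 4`, and `A` has no element of order
`q ^ 2`. Then `G` contains three subgroups of order `s` with pairwise trivial intersections if and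
only if `k = 1` and `A` is the direct product of two subgroups `M` and `N`, normal in `G`, of orders
`s / q` and `s`, such that `M` is isomorphic to a subgroup of `N`, and some `t` outside `A`

* has order `q`, or
* has its `q`-th power in `[M', t, ..., t]` (`q - 2` times `t`), while `[N', t, ..., t]` (`q - 1`
  times `t`) is not trivial, where `M'` and `N'` consist of the `x` in `M` and `N` with `x ^ q = 1`.

Here `⁅t, y⁆ = t * y * t⁻¹ * y⁻¹`, and `(fun y => ⁅t, y⁆)^[j]` is the `j`-fold iterate of this map.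
-/

set_option autoImplicit false

namespace Pool.Agent.Results.MP_53dcbc_co.CyclicFactor

open Pool.Agent.PCPem
open scoped commutatorElement

theorem result.{u} (q k : ℕ) (hq : q.Prime) (hk : k ≠ 0) (h4 : q ^ k ≠ 4)
    (G : Type u) [Group G] [Finite G] (s : ℕ) (hG : Nat.card G = s ^ 2)
    (A : Subgroup G) [A.Normal] [IsCyclic (G ⧸ A)] (hidx : A.index = q ^ k)
    (hcomm : ∀ x ∈ A, ∀ y ∈ A, x * y = y * x) (hexp : ∀ x ∈ A, orderOf x ≠ q ^ 2) :
    (∃ U : Fin 3 → Subgroup G,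
      (∀ i, Nat.card (U i) = s) ∧ ∀ i j, i ≠ j → U i ⊓ U j = ⊥) ↔
    k = 1 ∧ ∃ M N : Subgroup G, M.Normal ∧ N.Normal ∧ M ⊓ N = ⊥ ∧ M ⊔ N = A ∧
      Nat.card M * q = s ∧ Nat.card N = s ∧ (∃ φ : M →* N, Function.Injective φ) ∧
      ∃ t, t ∉ A ∧ (t ^ q = 1 ∨
        ((∃ m ∈ M, m ^ q = 1 ∧ t ^ q = (fun y => ⁅t, y⁆)^[q - 2] m) ∧
          ∃ n ∈ N, n ^ q = 1 ∧ (fun y => ⁅t, y⁆)^[q - 1] n ≠ 1)) := by
  have hexp' : ∀ x ∈ A, x ^ (q ^ 2) = 1 → x ^ q = 1 := by
    intro x hx h
    obtain ⟨j, hj, hj'⟩ := (Nat.dvd_prime_pow hq).1 (orderOf_dvd_of_pow_eq_one h)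
    have h2 : j ≠ 2 := by
      rintro rfl
      exact hexp x hx hj'
    have h3 : j ≤ 1 := by omega
    apply orderOf_dvd_iff_pow_eq_one.1
    rw [hj']
    exact (pow_dvd_pow q h3).trans (dvd_of_eq (pow_one q))
  constructor
  · rintro ⟨U, hU1, hU2⟩
    have hk1 : k = 1 := by
      by_contra hne
      exact general_neg hq (by omega) h4 G hG A hidx hcomm hexp' U hU1 hU2
    subst hk1
    rw [pow_one] at hidx
    exact ⟨rfl, general_nec hq G hG A hidx hcomm hexp' U hU1 hU2⟩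
  · rintro ⟨rfl, M, N, hM, hN, hMN, hsup, hcM, hcN, ⟨φ, hφ⟩, t, ht, hcase⟩
    rw [pow_one] at hidx
    exact general_suff hq G hG A hidx hcomm hexp' M N hM hN hMN hsup hcM hcN φ hφ t ht hcase

end Pool.Agent.Results.MP_53dcbc_co.CyclicFactor
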