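import Pool.Agent.Lib_MP_53dcbc_mc.Fin

/-!
# Groups of order `s ^ 2` and rank at most two with three disjoint subgroups of order `s`

Let `G` be a group of order `s ^ 2` that has no elementary abelian subgroup of order `q ^ 3` for
any prime `q`, and whose Sylow `2`-subgroups are abelian. Then `G` contains three subgroups of
order `s` with pairwise trivial intersections if and only if

* the Sylow subgroups of `G` are metacyclic and `g ^ s = 1` for all `g`,
* `G` is supersolvable, and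
* there are normal subgroups `K 0, K 1, K 2` with cyclic quotients, pairwise generating `G`, such
  that for every Sylow `q`-subgroup `Q` either every element normalising `Q` normalises all
  subgroups of order `q` of `Q`, or some `K i` contains `Q` and every element of `K i` normalising
  `Q` normalises all subgroups of order `q` of `Q`.
-/

namespace Pool.Agent.Results.MP_53dcbc_co.RankTwo

open Subgroup Pool.Agent.Lib_MP_53dcbc_co Pool.Agent.Lib_MP_53dcbc_mc

theorem result.{u} (G : Type u) [Group G] [Finite G] (s : ℕ) (hG : Nat.card G = s ^ 2)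
    (hr : ∀ q : ℕ, q.Prime → ∀ A : Subgroup G, (∀ x ∈ A, x ^ q = 1) →
      (∀ x ∈ A, ∀ y ∈ A, x * y = y * x) → Nat.card A ≠ q ^ 3)
    (h2 : ∀ Q : Sylow 2 G, ∀ x ∈ Q, ∀ y ∈ Q, x * y = y * x) :
    (∃ U : Fin 3 → Subgroup G,
      (∀ i, Nat.card (U i) = s) ∧ ∀ i j, i ≠ j → U i ⊓ U j = ⊥) ↔
    (∀ q : ℕ, q.Prime → ∀ Q : Sylow q G, Metacyclic Q) ∧
    (∀ g : G, g ^ s = 1) ∧
    SupersolvableGroup G ∧
    ∃ K : Fin 3 → Subgroup G,
      (∀ i, (K i).Normal ∧ ∃ g : G, zpowers g ⊔ K i = ⊤) ∧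
      (∀ i j, i ≠ j → K i ⊔ K j = ⊤) ∧
      ∀ q : ℕ, q.Prime → ∀ Q : Sylow q G,
        FixesLines q ⊤ (Q : Subgroup G) ∨
          ∃ i, (Q : Subgroup G) ≤ K i ∧ FixesLines q (K i) (Q : Subgroup G) := by
  constructor
  · rintro ⟨U, hU⟩
    have hZ : ∀ i, IsZGroup (U i) := zgroup_of_rank hG hU hr h2
    exact ⟨sylow_metacyclic hG hU hZ h2, necessity' hG hU hZ h2⟩
  · rintro ⟨h0, h1, h3, K, h4, h5, h6⟩
    obtain ⟨U, hU, -⟩ := sufficiency' s G hG h0 h2 h1 h3 K h4 h5 h6
    exact ⟨U, hU⟩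

end Pool.Agent.Results.MP_53dcbc_co.RankTwo
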