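import Pool.Agent.Lib_MP_53dcbc_sd.Fin

/-!
# Groups of odd prime exponent and class two with derived subgroup of order at most `p ^ 2`

Let `p` be an odd prime and let `G` be a group of order `s ^ 2`, `s = p ^ a`, of exponent `p` and
nilpotency class at most two whose derived subgroup has order at most `p ^ 2`. Then `G` has an
`(s, p, 1)`-PCP: it contains `p` subgroups of order `s` with pairwise trivial intersections.
-/

set_option autoImplicit false

namespace Pool.Agent.Results.MP_53dcbc_co.SmallDerived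

theorem result (p a : ℕ) (hp : p.Prime) (hp2 : p ≠ 2) (ha : 1 ≤ a) (G : Type) [Group G]
    (hG : Nat.card G = p ^ (2 * a)) (hexp : ∀ x : G, x ^ p = 1)
    (hc : ∀ x y : G, x * y * x⁻¹ * y⁻¹ ∈ Subgroup.center G)
    (hd : Nat.card (commutator G) ≤ p ^ 2) :
    ∃ U : Fin p → Subgroup G, (∀ i, Nat.card (U i) = p ^ a) ∧
      ∀ i j, i ≠ j → U i ⊓ U j = ⊥ :=
  Pool.Agent.Lib_MP_53dcbc_sd.pcp hp hp2 ha hG hexp hc hd

end Pool.Agent.Results.MP_53dcbc_co.SmallDerived
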